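import Mathlib
import Pool.Agent.W42.RG.Defs2

set_option autoImplicit false
set_option linter.unusedSectionVars false
set_option linter.unusedVariables false

/-!
The rotating flow of a generalised eigenvector.
-/

namespace Pool.Agent.W162.LY

open Finset Filter Topology MeasureTheory Pool.Agent.W42.RN Pool.Agent.W42.RL Pool.Agent.W42.RG

variable {X : Type} [MeasurableSpace X]
variable {𝔤 : Type} [LieRing 𝔤] [LieAlgebra ℝ 𝔤] [FiniteDimensional ℝ 𝔤] [TopologicalSpace 𝔤]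
  [IsTopologicalAddGroup 𝔤] [ContinuousSMul ℝ 𝔤] [T2Space 𝔤]
variable {μ : Measure X} [IsProbabilityMeasure μ] {E : 𝔤 → X → X}

theorem meas_of_conj {S : X → X} (hS : MeasurePreserving S μ μ) {A : 𝔤 → 𝔤}
    (h : ∀ Y, Same μ (S ∘ E Y) (E (A Y) ∘ S)) (K : LieIdeal ℝ 𝔤) (hK : ∀ Y ∈ K, A Y ∈ K) :
    Measurable[mK μ E (K : Set 𝔤), mK μ E (K : Set 𝔤)] S := by
  intro B hB
  refine ⟨hS.measurable hB.1, fun Y hY => ?_⟩
  have h1 : E Y ⁻¹' (S ⁻¹' B) =ᵐ[μ] S ⁻¹' (E (A Y) ⁻¹' B) := h Y B hB.1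
  exact h1.trans (pre_ae hS (hB.2 _ (hK Y hY)))

theorem symm_same {T : X ≃ᵐ X} (hT : MeasurePreserving T μ μ) (A : 𝔤 ≃ₗ[ℝ] 𝔤)
    (h : ∀ Y, Same μ (T ∘ E Y) (E (A Y) ∘ T)) (Y : 𝔤) :
    Same μ (T.symm ∘ E Y) (E (A.symm Y) ∘ T.symm) := by
  have hT' : MeasurePreserving T.symm μ μ := hT.symm T
  have h1 := h (A.symm Y)
  rw [A.apply_symm_apply] at h1
  have g1 := (h1.symm.left (R := T.symm) T.symm.measurable).right hT'
  have e1 : (T.symm ∘ (E Y ∘ T)) ∘ T.symm = T.symm ∘ E Y := by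
    funext p
    simp only [Function.comp_apply, T.apply_symm_apply]
  have e2 : (T.symm ∘ (T ∘ E (A.symm Y))) ∘ T.symm = E (A.symm Y) ∘ T.symm := by
    funext p
    simp only [Function.comp_apply, T.symm_apply_apply]
  rw [e1, e2] at g1
  exact g1

/-- commuting modulo the ideal -/
theorem comm_on (hE : LieAct μ E) (K : LieIdeal ℝ 𝔤) (a b : 𝔤) (hab : ⁅a, b⁆ ∈ K) {B : Set X}
    (hB : MeasurableSet[mK μ E (K : Set 𝔤)] B) :
    E b ⁻¹' (E a ⁻¹' B) =ᵐ[μ] E a ⁻¹' (E b ⁻¹' B) := by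
  obtain ⟨Z', hZ'⟩ := exists_exp (LieAlgebra.ad ℝ 𝔤 a) b
  have h1 : HasSum (fun l : ℕ => if l = 0 then b else (0 : 𝔤)) b := by
    exact hasSum_ite_eq 0 b
  have h2 := hZ'.sub h1
  have hmem : Z' - b ∈ K.toSubmodule := by
    refine hasSum_mem K.toSubmodule _ (fun l => ?_) (Z' - b) h2
    rcases Nat.eq_zero_or_pos l with hl | hl
    · subst hl
      simp
    · rw [if_neg hl.ne', sub_zero]
      obtain ⟨l', rfl⟩ : ∃ l', l = l' + 1 := ⟨l - 1, by omega⟩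
      refine K.toSubmodule.smul_mem _ ?_
      rw [pow_succ, Module.End.mul_apply, LieAlgebra.ad_apply]
      exact ad_pow_mem K a _ hab l'
  have h3 : E b ⁻¹' (E a ⁻¹' B) =ᵐ[μ] E a ⁻¹' (E Z' ⁻¹' B) := hE.conj a b Z' hZ' B hB.1
  refine h3.trans (pre_ae (hE.mp a) ?_)
  have h4 := quot hE K b (Z' - b) hmem B hB
  rw [add_sub_cancel] at h4
  exact h4

theorem add_on (hE : LieAct μ E) (K : LieIdeal ℝ 𝔤) (a b : 𝔤)
    (hab : ∀ s t : ℝ, ⁅s • a, t • b⁆ ∈ K) :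
    SameOn (mK μ E (K : Set 𝔤)) μ (E (a + b)) (E a ∘ E b) := by
  intro A hA
  symm
  apply ae_of_int ((hE.mp _).measurable.comp (hE.mp _).measurable) (hE.mp _).measurable hA.1
  have h1 := hE.trotter a b (ind A) (ind_bd hA.1)
  have key : ∀ n : ℕ, 1 ≤ n →
      ((E ((n : ℝ)⁻¹ • a) ∘ E ((n : ℝ)⁻¹ • b))^[n]) ⁻¹' A =ᵐ[μ] (E a ∘ E b) ⁻¹' A := by
    intro n hn
    have hn0 : (n : ℝ) ≠ 0 := by positivity
    have h2 : ∀ j : ℕ, ((E ((n : ℝ)⁻¹ • a) ∘ E ((n : ℝ)⁻¹ • b))^[j]) ⁻¹' A =ᵐ[μ]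
        E (((j : ℝ) * (n : ℝ)⁻¹) • b) ⁻¹' (E (((j : ℝ) * (n : ℝ)⁻¹) • a) ⁻¹' A) := by
      intro j
      induction j with
      | zero =>
        simp only [Function.iterate_zero, Nat.cast_zero, zero_mul, zero_smul]
        have g1 : E 0 ⁻¹' A =ᵐ[μ] A := hE.zero A hA.1
        have g2 : E 0 ⁻¹' (E 0 ⁻¹' A) =ᵐ[μ] A := (pre_ae (hE.mp 0) g1).trans g1
        exact g2.symm
      | succ j ih =>
        set δ : ℝ := (n : ℝ)⁻¹ with hδ
        have e : ((j : ℝ) * δ + δ) = ((j + 1 : ℕ) : ℝ) * δ := by push_cast; ring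
        have h3 : ((E (δ • a) ∘ E (δ • b))^[j + 1]) ⁻¹' A =
            E (δ • b) ⁻¹' (E (δ • a) ⁻¹' (((E (δ • a) ∘ E (δ • b))^[j]) ⁻¹' A)) := by
          rw [Function.iterate_succ]; rfl
        have hA1 : MeasurableSet[mK μ E (K : Set 𝔤)] (E (((j : ℝ) * δ) • a) ⁻¹' A) :=
          conj_mem hE K _ hA
        have g1 : E (δ • a) ⁻¹' (E (((j : ℝ) * δ) • b) ⁻¹' (E (((j : ℝ) * δ) • a) ⁻¹' A)) =ᵐ[μ]
            E (((j : ℝ) * δ) • b) ⁻¹' (E (δ • a) ⁻¹' (E (((j : ℝ) * δ) • a) ⁻¹' A)) :=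
          (comm_on hE K (δ • a) (((j : ℝ) * δ) • b) (hab _ _) hA1).symm
        have g2 : E (δ • a) ⁻¹' (E (((j : ℝ) * δ) • a) ⁻¹' A) =ᵐ[μ]
            E ((((j + 1 : ℕ) : ℝ) * δ) • a) ⁻¹' A := by
          have := hE.line a ((j : ℝ) * δ) δ A hA.1
          rw [e] at this
          exact this.symm
        have hA2 : MeasurableSet[mK μ E (K : Set 𝔤)] (E ((((j + 1 : ℕ) : ℝ) * δ) • a) ⁻¹' A) :=
          conj_mem hE K _ hA
        have g3 : E (δ • b) ⁻¹' (E (((j : ℝ) * δ) • b) ⁻¹'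
            (E ((((j + 1 : ℕ) : ℝ) * δ) • a) ⁻¹' A)) =ᵐ[μ]
            E ((((j + 1 : ℕ) : ℝ) * δ) • b) ⁻¹' (E ((((j + 1 : ℕ) : ℝ) * δ) • a) ⁻¹' A) := by
          have := hE.line b ((j : ℝ) * δ) δ _ hA2.1
          rw [e] at this
          exact this.symm
        rw [h3]
        refine (pre_ae (hE.mp (δ • b)) ((pre_ae (hE.mp (δ • a)) ih).trans (g1.trans
          (pre_ae (hE.mp _) g2)))).trans ?_
        exact g3
    have h6 := h2 n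
    rw [mul_inv_cancel₀ hn0, one_smul, one_smul] at h6
    exact h6
  have h2 : Tendsto (fun n : ℕ => ∫ p, ‖ind A ((E a ∘ E b) p) - ind A (E (a + b) p)‖ ∂μ) atTop
      (𝓝 0) := by
    refine h1.congr' ?_
    filter_upwards [eventually_ge_atTop 1] with n hn
    exact int_congr2 (key n hn) (EventuallyEq.refl _ _)
  exact tendsto_nhds_unique tendsto_const_nhds h2

theorem t_RFL : S_RFL := by
  intro X _ 𝔤 _ _ _ _ _ _ _ μ _ E hE T hT A hA K hK ω ψ hψ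
  have hψc : Continuous ψ := LinearMap.continuous_of_finiteDimensional ψ
  refine ⟨⟨fun ζ => hE.mp _, fun ζ => conj_meas hE K _, ?_, ?_, ?_, ?_⟩, ?_, ?_, ?_⟩
  · intro B hB
    have := hE.zero B hB.1
    rw [map_zero]
    exact this
  · intro ζ s t B hB
    have e1 : ψ ((s + t) • ζ) = (s + t) • ψ ζ := map_smul ψ _ _
    have e2 : ψ (s • ζ) = s • ψ ζ := map_smul ψ _ _
    have e3 : ψ (t • ζ) = t • ψ ζ := map_smul ψ _ _
    rw [e1, e2, e3]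
    exact hE.line (ψ ζ) s t B hB.1
  · intro f hf ζ₀
    have hfB : Bd f := ⟨hf.1.mono (mK_le μ E _) le_rfl, hf.2⟩
    exact (hE.cont f hfB (ψ ζ₀)).comp (hψc.tendsto ζ₀)
  · intro ζ B hB
    have e1 : A (ψ ζ) = ψ (ω * ζ) + nw A ω ψ ζ := by
      unfold nw
      simp
    have h1 : (T ∘ E (ψ ζ)) ⁻¹' B =ᵐ[μ] T ⁻¹' (E (A (ψ ζ)) ⁻¹' B) := hA (ψ ζ) B hB.1
    have h2 : E (A (ψ ζ)) ⁻¹' B =ᵐ[μ] E (ψ (ω * ζ)) ⁻¹' B := by
      rw [e1]
      exact quot hE K _ _ (hψ ζ) B hB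
    exact h1.trans (pre_ae hT h2)
  · exact meas_of_conj hT hA K fun Y hY => (hK Y).2 hY
  · refine meas_of_conj (hT.symm T) (symm_same hT A hA) K fun Y hY => ?_
    rw [← hK, A.apply_symm_apply]
    exact hY
  · intro hc ζ ζ'
    rw [map_add]
    refine add_on hE K (ψ ζ) (ψ ζ') fun s t => ?_
    have e3 : ψ (t • ζ') = t • ψ ζ' := map_smul ψ _ _
    rw [← e3]
    exact hc _ _

end Pool.Agent.W162.LY
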